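import Pool.Agent.helper64.D2.SpecC

set_option autoImplicit false

open Filter Topology
open scoped commutatorElement

namespace Pool.Agent.helper64.D2

theorem BSQ_succ (B n : ℕ) : bs B (n + 1) = bs B n + bs B n / 5 := rfl

theorem BSQ_ge (B : ℕ) (n : ℕ) : n * 6 * 0 + B ≤ bs B n := by
  induction n with
  | zero => simp [bs]
  | succ n ih => rw [BSQ_succ]; omega

theorem BSQ_add (B : ℕ) (hB : 30 ≤ B) (n : ℕ) : n + B ≤ bs B n := by
  induction n with
  | zero => simp [bs]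
  | succ n ih => rw [BSQ_succ]; omega

theorem BSQ_step (B : ℕ) (hB : 30 ≤ B) (n : ℕ) : 7 * bs B n ≤ 6 * bs B (n + 1) ∧ 5 * bs B (n + 1) ≤ 6 * bs B n := by
  have h := BSQ_add B hB n
  rw [BSQ_succ]
  constructor <;> omega

theorem BSQ_two (B : ℕ) (n : ℕ) : bs B n ≤ B * 2 ^ n := by
  induction n with
  | zero => simp [bs]
  | succ n ih =>
    rw [BSQ_succ, pow_succ]
    have : bs B n / 5 ≤ bs B n := Nat.div_le_self _ _
    calc bs B n + bs B n / 5 ≤ B * 2 ^ n + B * 2 ^ n := by omega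
      _ = B * (2 ^ n * 2) := by ring

theorem BSQ_eight (B : ℕ) (hB : 30 ≤ B) (n : ℕ) : 2 ^ n ≤ (bs B n) ^ 8 := by
  induction n with
  | zero =>
    have : 1 ≤ bs B 0 := by simp only [bs]; omega
    simpa using Nat.one_le_pow 8 _ this
  | succ n ih =>
    have h := (BSQ_step B hB n).1
    have h8 : (7 * bs B n) ^ 8 ≤ (6 * bs B (n + 1)) ^ 8 := Nat.pow_le_pow_left h 8
    rw [mul_pow, mul_pow] at h8
    norm_num at h8
    rw [pow_succ]
    omega

theorem BSQ_cube (B : ℕ) (hB : 30 ≤ B) (n : ℕ) : bs B (2 * n) ≤ (bs B n) ^ 3 := by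
  induction n with
  | zero =>
    have h1 : 1 ≤ bs B 0 := by simp only [bs]; omega
    simpa using Nat.le_self_pow (by norm_num : (3 : ℕ) ≠ 0) (bs B 0)
  | succ n ih =>
    have h := (BSQ_step B hB n).1
    have h3 : (7 * bs B n) ^ 3 ≤ (6 * bs B (n + 1)) ^ 3 := Nat.pow_le_pow_left h 3
    rw [mul_pow, mul_pow] at h3
    norm_num at h3
    have ha := (BSQ_step B hB (2 * n)).2
    have hb := (BSQ_step B hB (2 * n + 1)).2
    have e : 2 * (n + 1) = 2 * n + 1 + 1 := by ring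
    rw [e]
    omega

theorem BSQ_shift (B : ℕ) (n : ℕ) : bs B (n + 1) = bs (bs B 1) n := by
  induction n with
  | zero => rfl
  | succ n ih => rw [BSQ_succ B (n + 1), BSQ_succ (bs B 1) n, ih]

theorem BSQ : BSQ_stmt := by
  intro B hB
  refine ⟨?_, BSQ_add B hB, BSQ_two B, BSQ_eight B hB, BSQ_cube B hB, BSQ_step B hB, BSQ_shift B, ?_⟩
  · apply strictMono_nat_of_lt_succ
    intro n
    have h := BSQ_add B hB n
    rw [BSQ_succ]
    omega
  · intro n
    have h := BSQ_add B hB n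
    rw [BSQ_succ]
    omega

end Pool.Agent.helper64.D2
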