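import Pool.Agent.helper64.D2.SpecF

set_option autoImplicit false

open Filter Topology
open scoped commutatorElement

namespace Pool.Agent.helper64.D2

/-- **FIN**. -/
theorem FIN (hCOM : COM_stmt) (hNR4 : NR4_stmt) : FIN_stmt := by
  intro f g hf1 hf2 hg1 hg2 hf hML
  have hg : g ∈ G2 := ⟨hg1, hg2⟩
  have hfG : f ∈ G2 := ⟨hf1, hf2⟩
  have h := hCOM g hg hML
  exact ⟨h, hNR4 f hfG hf h⟩

end Pool.Agent.helper64.D2
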